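import Pool.Agent.H90.STE.Stmts
import Pool.Agent.H1.STE.Inc

/-!
# BN: binomial coefficients
-/

set_option autoImplicit false

namespace Pool.STE

open Finset

theorem BN.cb (k : ℕ) : (k + 1) * (k.centralBinom) ^ 2 ≤ (4 ^ k) ^ 2 := by
  induction k with
  | zero => simp
  | succ k ih =>
    have h := Nat.succ_mul_centralBinom_succ k
    have h1 : (k + 1) ^ 2 * ((k + 1 + 1) * ((k + 1).centralBinom) ^ 2) ≤
        (k + 1) ^ 2 * (4 ^ (k + 1)) ^ 2 := by
      calc (k + 1) ^ 2 * ((k + 1 + 1) * ((k + 1).centralBinom) ^ 2)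
          = (k + 2) * ((k + 1) * (k + 1).centralBinom) ^ 2 := by ring
        _ = (k + 2) * (2 * (2 * k + 1) * k.centralBinom) ^ 2 := by rw [h]
        _ = 4 * ((2 * k + 1) ^ 2 * (k + 2)) * k.centralBinom ^ 2 := by ring
        _ ≤ 4 * (4 * (k + 1) ^ 3) * k.centralBinom ^ 2 := by
            apply Nat.mul_le_mul_right
            apply Nat.mul_le_mul_left
            nlinarith [Nat.zero_le k]
        _ = 16 * (k + 1) ^ 2 * ((k + 1) * k.centralBinom ^ 2) := by ring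
        _ ≤ 16 * (k + 1) ^ 2 * (4 ^ k) ^ 2 := Nat.mul_le_mul_left _ ih
        _ = (k + 1) ^ 2 * (4 ^ (k + 1)) ^ 2 := by ring
    exact Nat.le_of_mul_le_mul_left h1 (by positivity)

/-- BN. -/
theorem bn : BNStmt := by
  have h1 : ∀ n : ℕ, 1 ≤ n → ∑ j ∈ Finset.range (n - 1), min (n.choose j) (n.choose (j + 1)) +
      (1 + n.choose (n / 2)) = 2 ^ n := by
    intro n hn
    have := Pool.H1.STE.sum_min n hn
    omega
  refine ⟨h1, ?_, ?_⟩
  · intro n hn
    have h2 := h1 n hn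
    have h3 : 1 + n.choose (n / 2) ≤ 2 ^ n := by omega
    have h4 : (1 : ℝ) + (n.choose (n / 2) : ℝ) ≤ 2 ^ n := by exact_mod_cast h3
    unfold KQ
    linarith
  · intro a ha
    set c : ℝ := 1 - 1 / a with hc
    have ha0 : 0 < a := by linarith
    have hc0 : 0 < c := by
      have : 1 / a < 1 := by
        rw [div_lt_one ha0]
        exact ha
      linarith
    obtain ⟨k, hk⟩ := exists_nat_gt (1 / c ^ 2)
    have hk1 : 1 ≤ c ^ 2 * ((k : ℝ) + 1) := by
      rw [div_lt_iff₀ (by positivity)] at hk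
      nlinarith [sq_nonneg c]
    refine ⟨2 * (k + 1), by omega, ?_⟩
    have h2 := BN.cb (k + 1)
    have h2' : (((k + 1 : ℕ) : ℝ) + 1) * (((k + 1).centralBinom : ℕ) : ℝ) ^ 2 ≤
        ((4 : ℝ) ^ (k + 1)) ^ 2 := by exact_mod_cast h2
    have hk2 : 1 ≤ c ^ 2 * (((k + 1 : ℕ) : ℝ) + 1) := by
      push_cast
      nlinarith [sq_nonneg c]
    set B : ℝ := (((k + 1).centralBinom : ℕ) : ℝ) with hB
    set P : ℝ := (4 : ℝ) ^ (k + 1) with hP
    have hB0 : 0 ≤ B := Nat.cast_nonneg _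
    have hP0 : 0 < P := by positivity
    have h3 : B ^ 2 ≤ (c * P) ^ 2 := by
      calc B ^ 2 ≤ B ^ 2 * (c ^ 2 * (((k + 1 : ℕ) : ℝ) + 1)) :=
            le_mul_of_one_le_right (sq_nonneg _) hk2
        _ = c ^ 2 * ((((k + 1 : ℕ) : ℝ) + 1) * B ^ 2) := by ring
        _ ≤ c ^ 2 * P ^ 2 := mul_le_mul_of_nonneg_left h2' (sq_nonneg _)
        _ = (c * P) ^ 2 := by ring
    have h4 : B ≤ c * P := (sq_le_sq₀ hB0 (by positivity)).1 h3
    have h5 : (2 : ℝ) ^ (2 * (k + 1)) = P := by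
      rw [hP, pow_mul]
      norm_num
    have h6 : ((2 * (k + 1)).choose (2 * (k + 1) / 2) : ℝ) = B := by
      rw [hB, Nat.centralBinom_eq_two_mul_choose, Nat.mul_div_cancel_left _ (by norm_num)]
    unfold KQ
    rw [h5, h6]
    have h7 : a * c = a - 1 := by
      rw [hc]
      field_simp
    nlinarith [mul_le_mul_of_nonneg_left h4 ha0.le]

end Pool.STE
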