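import Pool.Agent.H90.STE.Stmts

/-!
# CR: self-similarity of near-maximisers (random time)
-/

set_option autoImplicit false

namespace Pool.STE

open Finset Real
open Pool.Agent.H49.Ent Pool.Agent.H32.Dense Pool.STK Pool.KA

/-- CR, with the hypotheses which are used. -/
theorem cr_of (hSPB : SPBStmt) (hSPA : Pool.STK.SPAStmt) : CRStmt := by
  intro m a R η ε ε₁ θ₁ e N k F ha hN hgood hεN heθ hTm hst hnear
  have ha0 : 0 ≤ a := by linarith
  have e2 := hSPB m (N * k) F N k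
  have e3 := hSPA m F.Ω F.ζ F.p F.u F.d F.Z F.isLaw F.dir N k
  have e4 : ∑ r ∈ range N, CH F.p (Fl F.u (r * k)) (fun ω => (Fl F.d (r * k) ω, F.Z ω)) ≤
      N * (ε * (N * k)) := by
    have h1 : ∑ r ∈ range N, CH F.p (Fl F.u (r * k)) (fun ω => (Fl F.d (r * k) ω, F.Z ω)) ≤
        ∑ _r ∈ range N, ε * (N * k) := by
      apply sum_le_sum
      intro r hr
      have h2 := hst (r * k) (Nat.mul_le_mul_right k (mem_range.1 hr).le)
      push_cast at h2
      exact h2
    rwa [sum_const, card_range, nsmul_eq_mul] at h1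
  rw [sum_add_distrib] at e3
  have e5 : ∑ r ∈ range N, vT a F k r =
      ∑ r ∈ range N, CH F.p (F.D ((r + 1) * k)) (fun ω => (F.L (r * k) ω, F.Z ω)) -
        a * ∑ r ∈ range N, CH F.p (F.X ((r + 1) * k)) (bT F k r) := by
    simp only [vT]
    rw [sum_sub_distrib, mul_sum]
  have e6 : ∑ r ∈ range N, (iT F k r + cc m) =
      ∑ r ∈ range N, CH F.p (F.X ((r + 1) * k)) (fun ω => (F.X (r * k) ω, F.W ω)) -
        ∑ r ∈ range N, CH F.p (F.X ((r + 1) * k)) (bT F k r) + N * cc m := by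
    simp only [iT]
    rw [sum_add_distrib, sum_sub_distrib, sum_const, card_range, nsmul_eq_mul]
  have e3' : CH F.p (F.D (N * k)) F.Z ≤ cc m +
      (∑ r ∈ range N, CH F.p (Fl F.u (r * k)) (fun ω => (Fl F.d (r * k) ω, F.Z ω)) +
        ∑ r ∈ range N, CH F.p (F.D ((r + 1) * k)) (fun ω => (F.L (r * k) ω, F.Z ω))) := e3
  have e7 := mul_le_mul_of_nonneg_left e2 ha0
  rw [sum_sub_distrib, sum_const, card_range, nsmul_eq_mul, e5, e6]
  simp only [B1]
  nlinarith [e3', e4, e7, hnear]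

/-- CR. -/
theorem cr (_hVB : VBStmt) (hSPB : SPBStmt) (_hSPC : SPCStmt) (hSPA : Pool.STK.SPAStmt) :
    CRStmt := cr_of hSPB hSPA

end Pool.STE
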